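import Pool.Agent.H88.MCR.Stmts2
import Pool.Agent.H46.MCR.ARR

set_option autoImplicit false

/-! Row AR2 of the board mcr. -/

namespace Pool.MCR

/-- the diagram or its mirror image -/
def fl62 {L : Type} (b : Bool) (D : Diag L) : Diag L := if b then flip D else D

theorem flip_flip62 {L : Type} (D : Diag L) : flip (flip D) = D := by
  cases D with
  | mk pos E S =>
    unfold flip
    simp

theorem keep62 (hFLP : FLP_S) (hNXK : NXK_S) (hTWU : TWU_S) {L : Type} [LinearOrder L] {n : ℕ}
    {D : Diag L} {T : ℕ → ℕ → Prop} {u v x : ℕ} (hD : Good n D) (hT : Thr T n D) (hu : u < n)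
    (hv : v < n) (huv : u ≠ v) (hx : x < n) (hxv : x ≠ v) (hS : D.S v x = true) (b : Bool)
    (hF : FirstUp (fl62 b D) n u v) : FirstUp (fl62 b (twist D v x)) n u v := by
  obtain ⟨t1, -⟩ := hTWU L n D v x hD hv hx hxv hS
  obtain ⟨hp, hy⟩ := t1 u hu huv
  cases b with
  | false => exact hNXK L n D (twist D v x) u v hD hu hv huv hp hy hF
  | true =>
    refine hNXK L n (flip D) (flip (twist D v x)) u v (hFLP L n D T hD hT).1 hu hv huv hp ?_ hF
    intro y hyn hyu
    obtain ⟨h1, h2⟩ := hy y hyn hyu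
    exact ⟨congrArg (fun c => !c) h1, h2⟩

theorem ar2_aux62 (hKIT : KIT_S) (hKLT : KLT_S) (hTGD : TGD_S) (hTTH : TTH_S) (hFLP : FLP_S)
    (hNXK : NXK_S) (hTWU : TWU_S) (b : Bool) (n : ℕ)
    (T : ℕ → ℕ → Prop) (w u : ℕ) (hw : w < n) (hu : u < n) (huw : u ≠ w) (k : ℕ) :
    ∀ (L : Type) [LinearOrder L] (D : Diag L), Good n D → Thr T n D → D.S w u = true →
      FirstUp (fl62 b D) n u w →
      (bfs n D w u).card ≤ k → ∃ (L' : Type) (_ : LinearOrder L') (D' : Diag L'), Good n D' ∧
        Thr T n D' ∧ FirstUp D' n w u ∧ FirstUp (fl62 b D') n u w := by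
  induction k with
  | zero =>
    intro L _ D hD hT hS hFF hc
    exact ⟨L, inferInstance, D, hD, hT, firstUp_of_bfs hKIT hKLT hD hw hu huw hS
      (Finset.card_eq_zero.1 (Nat.le_zero.1 hc)), hFF⟩
  | succ k ih =>
    intro L _ D hD hT hS hFF hc
    by_cases hb : bfs n D w u = ∅
    · exact ⟨L, inferInstance, D, hD, hT, firstUp_of_bfs hKIT hKLT hD hw hu huw hS hb, hFF⟩
    obtain ⟨x, hx, hx0⟩ := exists_first_bfs hKLT (Finset.nonempty_iff_ne_empty.2 hb)
    obtain ⟨hxn, hxw, hSx, hxu⟩ := mem_bfs.1 hx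
    obtain ⟨hirr, -, -, -, -⟩ := hKLT L (D.pos w)
    have hux : u ≠ x := by
      rintro rfl
      exact hirr _ hxu
    have hF : FirstUp D n w x := firstUp_of_bfs hKIT hKLT hD hw hxn hxw hSx hx0
    have hS' : (twist D w x).S w u = true := by
      have h2 : ¬ (w = x ∧ u = w) := fun h => huw h.2
      unfold twist
      simp only [true_and, if_neg hux, if_neg h2]
      exact hS
    refine ih (L ×ₗ ℤ) (twist D w x) (hTGD L n D w x hD hw hxn hxw hF)
      (hTTH L n D w x T hD hT hw hxn hxw hF) hS'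
      (keep62 hFLP hNXK hTWU hD hT hu hw huw hxn hxw hSx b hFF) ?_
    have hsub : bfs n (twist D w x) w u ⊆ (bfs n D w u).erase x := by
      intro y hy
      obtain ⟨h1, h2, h3, h4⟩ := mem_bfs.1 hy
      have hyx : y ≠ x := by
        rintro rfl
        have h5 : (twist D w y).S w y = false := by
          unfold twist
          simp only [true_and, if_true]
        rw [h5] at h3
        exact Bool.false_ne_true h3
      have h5 : (twist D w x).S w y = D.S w y := by
        have e2 : ¬ (w = x ∧ y = w) := fun h => h2 h.2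
        unfold twist
        simp only [true_and, if_neg hyx, if_neg e2]
      rw [h5] at h3
      rw [twist_nx D w x y hyx h2, twist_nx D w x u hux huw] at h4
      have h6 : (twist D w x).pos w = lp (D.pos w) 0 := rfl
      rw [h6] at h4
      have h7 := ((hKLT L (D.pos w)).2.2.2.2 (D.nx w y) (D.nx w u)).1 h4
      exact Finset.mem_erase.2 ⟨hyx, mem_bfs.2 ⟨h1, h2, h3, h7⟩⟩
    have h8 := Finset.card_le_card hsub
    rw [Finset.card_erase_of_mem hx] at h8
    omega

theorem ar2_thm (hKIT : KIT_S) (hKLT : KLT_S) (hTGD : TGD_S) (hTTH : TTH_S) (hFLP : FLP_S)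
    (hARR : ARR_S) (hNXK : NXK_S) (hTWU : TWU_S) : AR2_S := by
  intro L _ n D T u v hD hT hu hv huv
  obtain ⟨L1, _, E, hE, hTE, hFE⟩ := hARR L n D T u v hD hT hu hv huv.symm
  obtain ⟨hE1, hTE1⟩ := hFLP L1 n E T hE hTE
  by_cases hS : (flip E).S v u = true
  · have hF1 : FirstUp (fl62 true (flip E)) n u v := by
      show FirstUp (flip (flip E)) n u v
      rw [flip_flip62]
      exact hFE
    exact ar2_aux62 hKIT hKLT hTGD hTTH hFLP hNXK hTWU true n T v u hv hu huv _ L1 (flip E)
      hE1 hTE1 hS hF1 le_rfl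
  · have hS1 : E.S v u = true := by
      have h1 : (!(E.S v u)) = false := by
        rw [Bool.not_eq_true] at hS
        exact hS
      simpa using h1
    obtain ⟨L2, _, E2, hE2, hTE2, hF2, hF2'⟩ := ar2_aux62 hKIT hKLT hTGD hTTH hFLP hNXK hTWU
      false n T v u hv hu huv _ L1 E hE hTE hS1 hFE le_rfl
    have g1 := hTGD L2 n E2 v u hE2 hv hu huv hF2
    have g2 := hTTH L2 n E2 v u T hE2 hTE2 hv hu huv hF2
    obtain ⟨g3, g4⟩ := hFLP (L2 ×ₗ ℤ) n (twist E2 v u) T g1 g2
    refine ⟨L2 ×ₗ ℤ, inferInstance, flip (twist E2 v u), g3, g4, ?_, ?_⟩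
    · obtain ⟨-, t1, t2, t3, t4⟩ := hTWU L2 n E2 v u hE2 hv hu huv hF2.1
      refine ⟨?_, ?_⟩
      · show (!((twist E2 v u).S v u)) = true
        rw [t2]
        rfl
      · intro y hy hyv hyu _
        show KL ((twist E2 v u).pos v) ((twist E2 v u).nx v u) ((twist E2 v u).nx v y)
        rw [t1, t3, (t4 y hy hyv hyu).2]
        have hne : E2.nx v y ≠ E2.pos v := ((hKIT L2 n E2 hE2).1 v hv y hy hyv.symm).2.1
        have hlt : lp (E2.pos v) 0 < lp (E2.pos v) 1 := by
          unfold lp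
          rw [Prod.Lex.toLex_lt_toLex]
          exact Or.inr ⟨rfl, by norm_num⟩
        rcases lt_or_gt_of_ne hne with h | h
        · left
          refine ⟨hlt, ?_⟩
          unfold lp
          rw [Prod.Lex.toLex_lt_toLex]
          exact Or.inl h
        · right
          left
          refine ⟨hlt, ?_, ?_⟩
          · unfold lp
            rw [Prod.Lex.toLex_lt_toLex]
            exact Or.inl h
          · unfold lp
            rw [Prod.Lex.toLex_lt_toLex]
            exact Or.inl h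
    · rw [flip_flip62]
      exact keep62 hFLP hNXK hTWU hE2 hTE2 hu hv huv hu huv hF2.1 false hF2'

end Pool.MCR
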